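import Pool.Agent.H67.AG.T7
import Pool.Agent.H67.AG.T3

/-!
ABSOLUTE GAP (`MP_c59857_nt`), group T7, row LMF: errors and factor maps.
-/

set_option autoImplicit false

open MeasureTheory ProbabilityTheory Filter Topology Finset
open scoped Nat ENNReal

namespace Pool.Agent.H47.AG

open Pool.Agent.H24.T2 (Pset)
open Pool.Agent.H67.AG

theorem avgP_le_add (W m : ℕ) (F G : ℕ → ℝ) (c : ℝ) (hc : 0 ≤ c) (h : ∀ p, F p ≤ G p + c) :
    avgP W m F ≤ avgP W m G + c := by
  unfold avgP
  rcases Nat.eq_zero_or_pos (Pset W m).card with h0 | h0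
  · rw [h0]
    simp [hc]
  · have h1 : (0 : ℝ) < ((Pset W m).card : ℝ) := by exact_mod_cast h0
    rw [div_le_iff₀ h1, add_mul, div_mul_cancel₀ _ h1.ne']
    calc ∑ p ∈ Pset W m, F p ≤ ∑ p ∈ Pset W m, (G p + c) := Finset.sum_le_sum fun p _ => h p
      _ = ∑ p ∈ Pset W m, G p + c * ((Pset W m).card : ℝ) := by
          rw [Finset.sum_add_distrib, Finset.sum_const, nsmul_eq_mul]
          ring

theorem abs_avgP_le (W m : ℕ) (F : ℕ → ℝ) (h0 : ∀ p, 0 ≤ F p) (h1 : ∀ p, F p ≤ 1) :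
    |avgP W m F| ≤ 1 := by
  have hn : 0 ≤ avgP W m F := by
    unfold avgP
    exact div_nonneg (Finset.sum_nonneg fun p _ => h0 p) (Nat.cast_nonneg _)
  rw [abs_of_nonneg hn]
  have h2 := avgP_le_add W m F (fun _ => 0) 1 zero_le_one (fun p => by
    have := h1 p
    linarith)
  have h3 : avgP W m (fun _ => 0) = 0 := by simp [avgP]
  rw [h3] at h2
  linarith

theorem pf_LMF (hul : T_UL) : T_LMF := by
  intro Ω Ω' _ _ P _ P' _ T T' g k β σ W U y A A' hfac hy hA hA'
  obtain ⟨hg, hgT⟩ := hfac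
  obtain ⟨-, hmono, hadd, -, hconst⟩ := hul U
  have hit : ∀ (n : ℕ) (ω : Ω), g (T^[n] ω) = T'^[n] (g ω) := by
    intro n
    induction n with
    | zero => intro ω; rfl
    | succ n ih =>
      intro ω
      rw [Function.iterate_succ_apply, Function.iterate_succ_apply, ih, hgT]
  have hbdm : ∀ p, MeasurableSet (bd T' β σ y p) := by
    intro p
    have h1 : Measurable fun ω => ∏ i, y i (T'^[(p - 1) * β i] ω) :=
      Finset.measurable_prod _ fun i _ => (hy.1 i).comp (T'.measurable.iterate _)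
    exact (h1 (measurableSet_singleton σ)).compl
  have hpt : ∀ p, P.real (A ∩ bd T β σ (fun i ω => y i (g ω)) p) ≤
      P'.real (A' ∩ bd T' β σ y p) + P.real (A \ g ⁻¹' A') := by
    intro p
    have h1 : P'.real (A' ∩ bd T' β σ y p) = P.real (g ⁻¹' (A' ∩ bd T' β σ y p)) := by
      rw [measureReal_def, measureReal_def,
        hg.measure_preimage (hA'.inter (hbdm p)).nullMeasurableSet]
    rw [h1]
    refine (measureReal_mono ?_ (measure_ne_top _ _)).trans (measureReal_union_le _ _)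
    intro ω hω
    by_cases h2 : g ω ∈ A'
    · left
      refine ⟨h2, ?_⟩
      have h3 := hω.2
      simp only [bd, Set.mem_ofPred_eq] at h3 ⊢
      simp only [hit] at h3
      exact h3
    · right
      exact ⟨hω.1, h2⟩
  have hc : 0 ≤ P.real (A \ g ⁻¹' A') := measureReal_nonneg
  have hc1 : P.real (A \ g ⁻¹' A') ≤ 1 := measureReal_le_one
  unfold Lam
  have hb1 : ∀ m, |avgP W m fun p => P.real (A ∩ bd T β σ (fun i ω => y i (g ω)) p)| ≤ 1 :=
    fun m => abs_avgP_le W m _ (fun p => measureReal_nonneg) (fun p => measureReal_le_one)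
  have hb2 : ∀ m, |avgP W m fun p => P'.real (A' ∩ bd T' β σ y p)| ≤ 1 :=
    fun m => abs_avgP_le W m _ (fun p => measureReal_nonneg) (fun p => measureReal_le_one)
  have h1 := hmono (fun m => avgP W m fun p => P.real (A ∩ bd T β σ (fun i ω => y i (g ω)) p))
    (fun m => (avgP W m fun p => P'.real (A' ∩ bd T' β σ y p)) + P.real (A \ g ⁻¹' A'))
    ⟨1, hb1⟩ ⟨2, fun m => ?_⟩ (Eventually.of_forall fun m => avgP_le_add W m _ _ _ hc hpt)
  · refine h1.trans (le_of_eq ?_)
    rw [hadd _ (fun _ => P.real (A \ g ⁻¹' A')) ⟨1, hb2⟩ ⟨1, fun n => ?_⟩, hconst]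
    rw [abs_of_nonneg hc]
    exact hc1
  · refine (abs_add_le _ _).trans ?_
    rw [abs_of_nonneg hc]
    have := hb2 m
    linarith

end Pool.Agent.H47.AG
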