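import Pool.Agent.H24.AG.Targets

/-!
ABSOLUTE GAP (`MP_c59857_nt`), group T3v, row VIR: irrational frequencies.
-/

set_option autoImplicit false

open MeasureTheory ProbabilityTheory Filter Topology Finset
open scoped Nat

namespace Pool.Agent.H47.AG

open Pool.Agent.H24.AG

/-- the distances `|q θ - a|`, `1 ≤ q < Q₀`, are bounded below -/
theorem irr_gap (θ : ℝ) (hθ : Irrational θ) (Q₀ : ℕ) :
    ∃ δ : ℝ, 0 < δ ∧ ∀ (q : ℕ) (a : ℤ), 1 ≤ q → q < Q₀ → δ ≤ |(q : ℝ) * θ - a| := by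
  induction Q₀ with
  | zero => exact ⟨1, one_pos, fun q a _ h => absurd h (Nat.not_lt_zero _)⟩
  | succ Q₀ ih =>
    obtain ⟨δ, hδ, h⟩ := ih
    by_cases hQ : Q₀ = 0
    · refine ⟨δ, hδ, fun q a h1 h2 => ?_⟩
      omega
    · have hirr : Irrational ((Q₀ : ℝ) * θ) := hθ.natCast_mul hQ
      have hpos : 0 < |(Q₀ : ℝ) * θ - round ((Q₀ : ℝ) * θ)| := by
        rw [abs_pos, sub_ne_zero]
        exact hirr.ne_int _
      refine ⟨min δ |(Q₀ : ℝ) * θ - round ((Q₀ : ℝ) * θ)|, lt_min hδ hpos, ?_⟩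
      intro q a h1 h2
      rcases Nat.lt_succ_iff_lt_or_eq.1 h2 with h3 | h3
      · exact (min_le_left _ _).trans (h q a h1 h3)
      · rw [h3]
        exact (min_le_right _ _).trans (round_le _ _)

theorem pf_VIR (hm : T_VMJ) (hv : T_VVG) : T_VIR := by
  intro θ hθ ε hε
  obtain ⟨Q₀, X₁, h1⟩ := hm ε 12 hε
  obtain ⟨C, hC, h2⟩ := hv
  obtain ⟨δ, hδ, hgap⟩ := irr_gap θ hθ Q₀
  -- growth conditions
  have e1 : ∀ᶠ X : ℝ in atTop, Real.log X ^ 12 ≤ X / 2 := by
    have := Real.isLittleO_pow_log_id_atTop (n := 12)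
    have h := this.bound (c := 1 / 2) (by norm_num)
    filter_upwards [h, eventually_ge_atTop (1 : ℝ)] with X hX hX1
    have h0 : 0 ≤ Real.log X := Real.log_nonneg hX1
    rw [Real.norm_of_nonneg (by positivity), id, Real.norm_of_nonneg (by linarith)] at hX
    linarith
  have e2 : ∀ᶠ X : ℝ in atTop, Real.log X ^ 12 < δ * X := by
    have := Real.isLittleO_pow_log_id_atTop (n := 12)
    have h := this.bound (c := δ / 2) (by positivity)
    filter_upwards [h, eventually_ge_atTop (1 : ℝ)] with X hX hX1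
    have h0 : 0 ≤ Real.log X := Real.log_nonneg hX1
    rw [Real.norm_of_nonneg (by positivity), id, Real.norm_of_nonneg (by linarith)] at hX
    nlinarith
  have e3 : ∀ᶠ X : ℝ in atTop, 64 * C ≤ ε * Real.log X ^ 2 := by
    have : Tendsto (fun X : ℝ => ε * Real.log X ^ 2) atTop atTop :=
      Tendsto.const_mul_atTop hε ((tendsto_pow_atTop (by norm_num)).comp Real.tendsto_log_atTop)
    exact this.eventually_ge_atTop _
  have e4 : ∀ᶠ X : ℝ in atTop, 32 * C * (X ^ (4 / 5 : ℝ) * Real.log X ^ 4) ≤ ε * X := by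
    have hlo := (isLittleO_log_rpow_atTop (r := 1 / 20) (by norm_num)).pow (n := 4) (by norm_num)
    have h := hlo.bound (c := ε / (32 * C)) (by positivity)
    filter_upwards [h, eventually_ge_atTop (1 : ℝ)] with X hX hX1
    have h0 : 0 ≤ Real.log X := Real.log_nonneg hX1
    have hX0 : 0 < X := by linarith
    rw [Real.norm_of_nonneg (by positivity), Real.norm_of_nonneg (by positivity)] at hX
    have h5 : (X ^ (1 / 20 : ℝ)) ^ 4 = X ^ (1 / 5 : ℝ) := by
      rw [← Real.rpow_natCast, ← Real.rpow_mul hX0.le]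
      norm_num
    rw [h5] at hX
    have h6 : X ^ (4 / 5 : ℝ) * X ^ (1 / 5 : ℝ) = X := by
      rw [← Real.rpow_add hX0]
      norm_num
    have h7 : 0 < X ^ (4 / 5 : ℝ) := by positivity
    calc 32 * C * (X ^ (4 / 5 : ℝ) * Real.log X ^ 4)
        ≤ 32 * C * (X ^ (4 / 5 : ℝ) * (ε / (32 * C) * X ^ (1 / 5 : ℝ))) := by gcongr
      _ = ε * (X ^ (4 / 5 : ℝ) * X ^ (1 / 5 : ℝ)) := by field_simp
      _ = ε * X := by rw [h6]
  have hall : ∀ᶠ X : ℝ in atTop, X₁ ≤ X ∧ Real.exp 1 ≤ X ∧ Real.log X ^ 12 ≤ X / 2 ∧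
      Real.log X ^ 12 < δ * X ∧ 64 * C ≤ ε * Real.log X ^ 2 ∧
      32 * C * (X ^ (4 / 5 : ℝ) * Real.log X ^ 4) ≤ ε * X := by
    filter_upwards [e1, e2, e3, e4, eventually_ge_atTop X₁, eventually_ge_atTop (Real.exp 1)]
      with X a1 a2 a3 a4 a5 a6
    exact ⟨a5, a6, a1, a2, a3, a4⟩
  obtain ⟨X₂, hX₂⟩ := eventually_atTop.1 hall
  refine ⟨⌈X₂⌉₊, ?_⟩
  intro X hX Y hY
  obtain ⟨g1, g2, g3, g4, g5, g6⟩ := hX₂ (X : ℝ) (Nat.ceil_le.1 hX)
  have hXpos : (0 : ℝ) < X := (Real.exp_pos 1).trans_le g2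
  have hl1 : 1 ≤ Real.log X := (Real.le_log_iff_exp_le hXpos).2 g2
  have hX2 : 2 ≤ X := by
    have h3 : (2 : ℝ) ≤ Real.exp 1 := by
      have := Real.add_one_le_exp (1 : ℝ)
      linarith
    exact_mod_cast h3.trans g2
  have hl12 : 0 < Real.log (X : ℝ) ^ 12 := by positivity
  -- Dirichlet
  set R : ℕ := ⌊(X : ℝ) / Real.log X ^ 12⌋₊ with hR
  have hR1 : 1 ≤ R := by
    rw [hR, Nat.one_le_floor_iff, le_div_iff₀ hl12]
    linarith
  have hRle : (R : ℝ) ≤ X / Real.log X ^ 12 := Nat.floor_le (by positivity)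
  have hRlt : (X : ℝ) / Real.log X ^ 12 < R + 1 := Nat.lt_floor_add_one _
  obtain ⟨r, hr1, hr2⟩ := Real.exists_rat_abs_sub_le_and_den_le θ (n := R) hR1
  set q : ℕ := r.den with hq
  set a : ℤ := r.num with ha
  have hq1 : 1 ≤ q := r.den_pos
  have hq0 : (0 : ℝ) < q := by exact_mod_cast hq1
  have hcop : IsCoprime a (q : ℤ) := by
    rw [Int.isCoprime_iff_gcd_eq_one]
    have := r.reduced
    simpa [Nat.Coprime, Int.gcd] using this
  have hra : (r : ℝ) = (a : ℝ) / q := by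
    rw [ha, hq]
    exact Rat.cast_def r
  rw [hra] at hr1
  have hR0 : (0 : ℝ) < (R : ℝ) + 1 := by positivity
  have hkey : X / ((R : ℝ) + 1) < Real.log X ^ 12 := by
    rw [div_lt_iff₀ hR0]
    rw [div_lt_iff₀ hl12] at hRlt
    linarith
  by_cases hcase : (q : ℝ) ≤ Real.log X ^ 12
  · -- major arcs
    have hQq : Q₀ ≤ q := by
      by_contra hcon
      rw [not_le] at hcon
      have h3 := hgap q a hq1 hcon
      have h4 : |(q : ℝ) * θ - a| = q * |θ - a / q| := by
        have : (q : ℝ) * θ - a = q * (θ - a / q) := by field_simp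
        rw [this, abs_mul, abs_of_pos hq0]
      have h5 : (q : ℝ) * |θ - a / q| ≤ 1 / ((R : ℝ) + 1) := by
        calc (q : ℝ) * |θ - a / q| ≤ q * (1 / (((R : ℝ) + 1) * q)) :=
              mul_le_mul_of_nonneg_left hr1 hq0.le
          _ = 1 / ((R : ℝ) + 1) := by field_simp
      have h6 : 1 / ((R : ℝ) + 1) < δ := by
        have h7 : δ * X ≤ X / ((R : ℝ) + 1) := by
          have h8 : δ ≤ 1 / ((R : ℝ) + 1) := (h3.trans (h4.le)).trans h5
          calc δ * X ≤ 1 / ((R : ℝ) + 1) * X := mul_le_mul_of_nonneg_right h8 hXpos.le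
            _ = X / ((R : ℝ) + 1) := by ring
        exact absurd (h7.trans_lt hkey) (not_lt.2 g4.le)
      rw [h4] at h3
      linarith
    have hth : |θ - a / q| * X ≤ Real.log X ^ 12 := by
      have h3 : |θ - a / q| ≤ 1 / ((R : ℝ) + 1) := by
        refine hr1.trans ?_
        apply one_div_le_one_div_of_le hR0
        have : (1 : ℝ) ≤ q := by exact_mod_cast hq1
        nlinarith
      calc |θ - a / q| * X ≤ 1 / ((R : ℝ) + 1) * X := mul_le_mul_of_nonneg_right h3 hXpos.le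
        _ = X / ((R : ℝ) + 1) := by ring
        _ ≤ Real.log X ^ 12 := hkey.le
    have h3 := h1 X g1 q a (θ - a / q) hQq hq1 hcase hcop hth Y (by exact_mod_cast hY)
    have h4 : (fun n : ℕ => ee (((a : ℝ) / q + (θ - a / q)) * n)) = fun n : ℕ => ee (θ * n) := by
      funext n
      congr 1
      ring
    rw [h4] at h3
    exact h3
  · -- minor arcs
    rw [not_le] at hcase
    have hqX : (q : ℝ) ≤ X / Real.log X ^ 12 := by
      have : (q : ℝ) ≤ R := by exact_mod_cast hr2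
      exact this.trans hRle
    have hqX' : q ≤ X := by
      have h3 : (X : ℝ) / Real.log X ^ 12 ≤ X := div_le_self hXpos.le (one_le_pow₀ hl1)
      exact_mod_cast hqX.trans h3
    have hth : |θ - a / q| ≤ 1 / (q : ℝ) ^ 2 := by
      refine hr1.trans ?_
      apply one_div_le_one_div_of_le (by positivity)
      have : (q : ℝ) ≤ R := by exact_mod_cast hr2
      nlinarith
    have h3 := h2 θ q a X Y hq1 hcop hth hqX' hX2 hY
    have hlog : Real.log (2 * X) ≤ 2 * Real.log X := by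
      rw [Real.log_mul (by norm_num) hXpos.ne']
      have : Real.log 2 ≤ Real.log X := Real.log_le_log (by norm_num) (by exact_mod_cast hX2)
      linarith
    have hlog0 : 0 ≤ Real.log (2 * X) := Real.log_nonneg (by
      have : (2 : ℝ) ≤ X := by exact_mod_cast hX2
      linarith)
    have hlog4 : Real.log (2 * X) ^ 4 ≤ 16 * Real.log X ^ 4 := by
      calc Real.log (2 * X) ^ 4 ≤ (2 * Real.log X) ^ 4 := pow_le_pow_left₀ hlog0 hlog 4
        _ = 16 * Real.log X ^ 4 := by ring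
    have hl6 : 0 < Real.log (X : ℝ) ^ 6 := by positivity
    have hs1 : (X : ℝ) / √(q : ℝ) ≤ X / Real.log X ^ 6 := by
      apply div_le_div_of_nonneg_left hXpos.le hl6
      apply Real.le_sqrt_of_sq_le
      calc (Real.log (X : ℝ) ^ 6) ^ 2 = Real.log (X : ℝ) ^ 12 := by ring
        _ ≤ (q : ℝ) := hcase.le
    have hs2 : √((X : ℝ) * q) ≤ X / Real.log X ^ 6 := by
      apply Real.sqrt_le_iff.2
      refine ⟨by positivity, ?_⟩
      calc (X : ℝ) * q ≤ X * (X / Real.log X ^ 12) := mul_le_mul_of_nonneg_left hqX hXpos.le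
        _ = (X / Real.log X ^ 6) ^ 2 := by
            rw [div_pow]
            ring
    have hp : 0 ≤ (X : ℝ) ^ (4 / 5 : ℝ) := by positivity
    calc ‖ps (fun n => ee (θ * n)) Y‖
        ≤ C * ((X : ℝ) / √(q : ℝ) + (X : ℝ) ^ (4 / 5 : ℝ) + √((X : ℝ) * q)) *
          Real.log (2 * X) ^ 4 := h3
      _ ≤ C * (X / Real.log X ^ 6 + (X : ℝ) ^ (4 / 5 : ℝ) + X / Real.log X ^ 6) *
          (16 * Real.log X ^ 4) := by
          apply mul_le_mul _ hlog4 (by positivity) (by positivity)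
          apply mul_le_mul_of_nonneg_left _ hC.le
          linarith
      _ = (32 * C * (X ^ (4 / 5 : ℝ) * Real.log X ^ 4)) / 2 + 32 * C * X / Real.log X ^ 2 := by
          field_simp
          ring
      _ ≤ ε * X / 2 + ε * X / 2 := by
          refine add_le_add (by linarith) ?_
          rw [div_le_iff₀ (by positivity)]
          nlinarith
      _ = ε * X := by ring

end Pool.Agent.H47.AG
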