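import Pool.Agent.H24.AG.Targets
import Pool.Agent.H22.MR.Cheb
import Pool.Agent.H58.BV.PM
import Pool.Agent.H26.MV.Tors

/-!
ABSOLUTE GAP (`MP_c59857_nt`), group T3v, row VMJ: major arcs.
-/

set_option autoImplicit false

open MeasureTheory ProbabilityTheory Filter Topology Finset
open scoped Nat

namespace Pool.Agent.H47.AG.MJ

open Pool.Agent.H30.BV (cv)
open Pool.Agent.H24.AG

theorem norm_ee (x : ℝ) : ‖ee x‖ = 1 := by
  unfold ee
  have h : 2 * (Real.pi : ℂ) * Complex.I * (x : ℂ) = ((2 * Real.pi * x : ℝ) : ℂ) * Complex.I := by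
    push_cast; ring
  rw [h, Complex.norm_exp_ofReal_mul_I]

theorem ee_add (x y : ℝ) : ee (x + y) = ee x * ee y := by
  unfold ee
  rw [← Complex.exp_add]
  congr 1
  push_cast
  ring

theorem ee_int (n : ℤ) : ee (n : ℝ) = 1 := by
  unfold ee
  rw [Complex.exp_eq_one_iff]
  exact ⟨n, by push_cast; ring⟩

/-- the value depends only on the residue class -/
theorem ee_mod (q : ℕ) (a : ℤ) (n b : ℕ) (hq : 1 ≤ q) (h : n ≡ b [MOD q]) :
    ee ((a : ℝ) / q * n) = ee ((a : ℝ) * b / q) := by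
  have hq0 : (q : ℝ) ≠ 0 := by
    have : 0 < q := hq
    positivity
  obtain ⟨k, hk⟩ : ∃ k : ℤ, (n : ℤ) = b + q * k := by
    have h1 := (Int.natCast_modEq_iff.2 h).symm.dvd
    obtain ⟨k, hk⟩ := h1
    exact ⟨k, by linarith⟩
  have h2 : (n : ℝ) = b + q * k := by exact_mod_cast hk
  have h3 : (a : ℝ) / q * n = (a : ℝ) * b / q + ((a * k : ℤ) : ℝ) := by
    rw [h2]
    push_cast
    field_simp
  rw [h3, ee_add, ee_int, mul_one]

theorem norm_ps_le_psi (f : ℕ → ℂ) (hf : ∀ n, ‖f n‖ ≤ 1) (Y : ℕ) : ‖ps f Y‖ ≤ 6 * Y := by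
  have h1 := Pool.Agent.H22.MR.psi_bound (Y : ℝ) (Nat.cast_nonneg _)
  rw [Nat.floor_natCast] at h1
  refine le_trans ?_ h1
  unfold ps
  refine (norm_sum_le _ _).trans (Finset.sum_le_sum fun n _ => ?_)
  rw [norm_mul, Complex.norm_real, Real.norm_of_nonneg ArithmeticFunction.vonMangoldt_nonneg]
  exact mul_le_of_le_one_right ArithmeticFunction.vonMangoldt_nonneg (hf n)

/-- the part of the sum with `n` not coprime to `q` -/
theorem norm_ps_noncop (f : ℕ → ℂ) (hf : ∀ n, ‖f n‖ ≤ 1) (q Y : ℕ) (hq : 1 ≤ q) (hY : 1 ≤ Y) :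
    ‖ps (fun n => if n.Coprime q then 0 else f n) Y‖ ≤ q * Real.log Y := by
  have h1 := Pool.Agent.H58.BV.pm_sum q Y hq hY
  have h2 : (q.primeFactors.card : ℝ) ≤ q := by
    have h3 : q.primeFactors ⊆ Finset.Icc 1 q := by
      intro p hp
      exact Finset.mem_Icc.2 ⟨(Nat.prime_of_mem_primeFactors hp).one_lt.le,
        Nat.le_of_dvd hq (Nat.dvd_of_mem_primeFactors hp)⟩
    have h4 := Finset.card_le_card h3
    rw [Nat.card_Icc, Nat.add_sub_cancel] at h4
    exact_mod_cast h4
  have h5 : 0 ≤ Real.log (Y : ℝ) := Real.log_natCast_nonneg Y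
  refine le_trans ?_ (h1.trans (mul_le_mul_of_nonneg_right h2 h5))
  unfold ps
  refine (norm_sum_le _ _).trans (Finset.sum_le_sum fun n _ => ?_)
  rw [norm_mul, Complex.norm_real, Real.norm_of_nonneg ArithmeticFunction.vonMangoldt_nonneg]
  beta_reduce
  by_cases hn : n.Coprime q
  · have e1 : (if n.Coprime q then (0 : ℂ) else f n) = 0 := if_pos hn
    have e2 : (if n.Coprime q then (0 : ℝ) else ArithmeticFunction.vonMangoldt n) = 0 := if_pos hn
    rw [e1, e2, norm_zero, mul_zero]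
  · have e1 : (if n.Coprime q then (0 : ℂ) else f n) = f n := if_neg hn
    have e2 : (if n.Coprime q then (0 : ℝ) else ArithmeticFunction.vonMangoldt n) =
      ArithmeticFunction.vonMangoldt n := if_neg hn
    rw [e1, e2]
    exact mul_le_of_le_one_right ArithmeticFunction.vonMangoldt_nonneg (hf n)

theorem ps_add (f g : ℕ → ℂ) (Y : ℕ) : ps (fun n => f n + g n) Y = ps f Y + ps g Y := by
  unfold ps
  rw [← Finset.sum_add_distrib]
  exact Finset.sum_congr rfl fun n _ => by ring

theorem ps_mul (c : ℂ) (f : ℕ → ℂ) (Y : ℕ) : ps (fun n => c * f n) Y = c * ps f Y := by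
  unfold ps
  rw [Finset.mul_sum]
  exact Finset.sum_congr rfl fun n _ => by ring

theorem ps_sum (s : Finset ℕ) (F : ℕ → ℕ → ℂ) (Y : ℕ) :
    ps (fun n => ∑ b ∈ s, F b n) Y = ∑ b ∈ s, ps (F b) Y := by
  unfold ps
  rw [Finset.sum_comm]
  exact Finset.sum_congr rfl fun n _ => by rw [Finset.mul_sum]

theorem ps_congr (f g : ℕ → ℂ) (Y : ℕ) (h : ∀ n, f n = g n) : ps f Y = ps g Y := by
  rw [funext h]

/-- the decomposition of the sum into residue classes -/
theorem split_id (q : ℕ) (a : ℤ) (g : ℕ → ℂ) (n : ℕ) (hq : 1 ≤ q) :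
    ee ((a : ℝ) / q * n) * g n =
      (∑ b ∈ (Finset.range q).filter (fun b => b.Coprime q),
        ee ((a : ℝ) * b / q) * (if n ≡ b [MOD q] then g n else 0)) +
      (if n.Coprime q then 0 else ee ((a : ℝ) / q * n) * g n) := by
  by_cases hc : n.Coprime q
  · rw [if_pos hc, add_zero]
    have hmem : n % q ∈ (Finset.range q).filter (fun b => b.Coprime q) := by
      refine Finset.mem_filter.2 ⟨Finset.mem_range.2 (Nat.mod_lt _ hq), ?_⟩
      have h1 : n % q ≡ n [MOD q] := Nat.mod_modEq n q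
      have h2 := h1.gcd_eq
      rw [Nat.Coprime, h2]
      exact hc
    rw [Finset.sum_eq_single_of_mem (n % q) hmem]
    · rw [if_pos (Nat.mod_modEq n q).symm, ee_mod q a n (n % q) hq (Nat.mod_modEq n q).symm]
    · intro b hb hbn
      have hb' := Finset.mem_range.1 (Finset.mem_filter.1 hb).1
      rw [if_neg, mul_zero]
      intro hnb
      apply hbn
      have h3 : n % q = b % q := hnb
      rw [h3, Nat.mod_eq_of_lt hb']
  · rw [if_neg hc]
    have hz : ∑ b ∈ (Finset.range q).filter (fun b => b.Coprime q),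
        ee ((a : ℝ) * b / q) * (if n ≡ b [MOD q] then g n else 0) = 0 := by
      refine Finset.sum_eq_zero fun b hb => ?_
      rw [if_neg, mul_zero]
      intro hnb
      apply hc
      have h2 := hnb.gcd_eq
      rw [Nat.Coprime, h2]
      exact (Finset.mem_filter.1 hb).2
    rw [hz, zero_add]

theorem card_cop (q : ℕ) :
    ((Finset.range q).filter (fun b => b.Coprime q)).card = q.totient := by
  rw [Nat.totient]
  congr 1
  refine Finset.filter_congr fun b _ => ?_
  rw [Nat.coprime_comm]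

theorem pf_VMJ (hb : T_VPSB) (hr : T_VRM) (hc : T_VCS) : T_VMJ := by
  intro ε B hε
  obtain ⟨X₁, h1⟩ := hb (B + 1) B
  -- the modulus
  obtain ⟨K, hK⟩ : ∃ K : ℕ, 24 / ε ≤ K := exists_nat_ge _
  have e1 : ∀ᶠ X : ℝ in atTop, Real.log X ^ (B + 1) ≤ ε / 4 * X := by
    have hlo := Real.isLittleO_pow_log_id_atTop (n := B + 1)
    have hb := hlo.bound (c := ε / 4) (by positivity)
    filter_upwards [hb, eventually_ge_atTop (1 : ℝ)] with X hX hX1
    have h0 : 0 ≤ Real.log X := Real.log_nonneg hX1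
    rw [Real.norm_of_nonneg (by positivity), id, Real.norm_of_nonneg (by linarith)] at hX
    exact hX
  have e2 : ∀ᶠ X : ℝ in atTop, 4 / ε + 1 ≤ Real.log X :=
    Real.tendsto_log_atTop.eventually_ge_atTop _
  obtain ⟨X₂, hX₂⟩ := eventually_atTop.1 ((e1.and e2).and
    ((eventually_ge_atTop X₁).and (eventually_ge_atTop (1 : ℝ))))
  refine ⟨(2 * K) ^ (K + 2) + 1, X₂, ?_⟩
  intro X hX q a θ hQ hq hqB hcop hθ Y hY
  obtain ⟨⟨g1, g2⟩, g3, g4⟩ := hX₂ X hX
  have hX0 : 0 < X := by linarith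
  set L := Real.log X with hL
  have hε4 : 0 < 4 / ε := by positivity
  have hL1 : 1 ≤ L := by linarith
  have hL0 : 0 < L := by linarith
  have hphiK : K < q.totient := by
    by_contra hcon
    have h2 := Pool.Agent.H26.MV.le_of_totient K q (by omega) (not_lt.1 hcon)
    omega
  have hphi0 : (0 : ℝ) < q.totient := by
    have : 0 < q.totient := by omega
    exact_mod_cast this
  rcases Nat.eq_zero_or_pos Y with hY0 | hY0
  · rw [hY0]
    have : ps (fun n => ee (((a : ℝ) / q + θ) * n)) 0 = 0 := by simp [ps]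
    rw [this, norm_zero]
    positivity
  have hYr : (1 : ℝ) ≤ Y := by exact_mod_cast hY0
  -- the sum over the classes
  set g : ℕ → ℂ := fun n => ee (θ * n) with hg
  have hgn : ∀ n, ‖g n‖ ≤ 1 := fun n => (norm_ee _).le
  set s := (Finset.range q).filter (fun b => b.Coprime q) with hs
  have hdec : ps (fun n => ee (((a : ℝ) / q + θ) * n)) Y =
      (∑ b ∈ s, ee ((a : ℝ) * b / q) * ps (fun n => if n ≡ b [MOD q] then g n else 0) Y) +
      ps (fun n => if n.Coprime q then 0 else ee ((a : ℝ) / q * n) * g n) Y := by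
    have h2 : ∀ n : ℕ, ee (((a : ℝ) / q + θ) * n) =
        (∑ b ∈ s, ee ((a : ℝ) * b / q) * (if n ≡ b [MOD q] then g n else 0)) +
        (if n.Coprime q then 0 else ee ((a : ℝ) / q * n) * g n) := by
      intro n
      rw [← split_id q a g n hq, hg]
      simp only
      rw [← ee_add]
      congr 1
      ring
    rw [ps_congr _ _ Y h2, ps_add, ps_sum]
    congr 1
    exact Finset.sum_congr rfl fun b _ => by rw [ps_mul]
  have hM0 : 0 ≤ X / L ^ (B + 1) := by positivity
  have hcls : ∀ b ∈ s, ‖ps (fun n => if n ≡ b [MOD q] then g n else 0) Y -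
      (1 / (q.totient : ℂ)) * ps (fun n => if n.Coprime q then g n else 0) Y‖ ≤
      X / L ^ (B + 1) := by
    intro b hb
    refine hc q b g Y _ hq (Finset.mem_filter.1 hb).2 hM0 ?_
    intro χ hχ
    exact h1 X g3 q χ hq hqB hχ θ hθ Y hY
  set P := ps (fun n => if n.Coprime q then g n else 0) Y with hP
  have hPn : ‖P‖ ≤ 6 * X := by
    refine (norm_ps_le_psi _ (fun n => ?_) Y).trans (by linarith)
    split
    · exact hgn n
    · simp
  have hmain : (∑ b ∈ s, ee ((a : ℝ) * b / q) *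
      ps (fun n => if n ≡ b [MOD q] then g n else 0) Y) =
      (∑ b ∈ s, ee ((a : ℝ) * b / q)) * ((1 / (q.totient : ℂ)) * P) +
      ∑ b ∈ s, ee ((a : ℝ) * b / q) * (ps (fun n => if n ≡ b [MOD q] then g n else 0) Y -
        (1 / (q.totient : ℂ)) * P) := by
    rw [Finset.sum_mul, ← Finset.sum_add_distrib]
    exact Finset.sum_congr rfl fun b _ => by ring
  have hA : ‖(∑ b ∈ s, ee ((a : ℝ) * b / q)) * ((1 / (q.totient : ℂ)) * P)‖ ≤ ε / 4 * X := by
    rw [norm_mul, norm_mul]
    have h2 : ‖(1 / (q.totient : ℂ))‖ = 1 / q.totient := by simp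
    rw [h2]
    calc ‖∑ b ∈ s, ee ((a : ℝ) * b / q)‖ * (1 / q.totient * ‖P‖)
        ≤ 1 * (1 / q.totient * (6 * X)) := by
          apply mul_le_mul (hr q a hq hcop) _ (by positivity) (by norm_num)
          exact mul_le_mul_of_nonneg_left hPn (by positivity)
      _ = 6 * X / q.totient := by ring
      _ ≤ ε / 4 * X := by
          rw [div_le_iff₀ hphi0]
          have h3 : (K : ℝ) ≤ q.totient := by exact_mod_cast hphiK.le
          have h4 : 24 ≤ ε * q.totient := by
            rw [div_le_iff₀ hε] at hK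
            nlinarith
          nlinarith
  have hB : ‖∑ b ∈ s, ee ((a : ℝ) * b / q) *
      (ps (fun n => if n ≡ b [MOD q] then g n else 0) Y - (1 / (q.totient : ℂ)) * P)‖ ≤
      ε / 4 * X := by
    refine (norm_sum_le _ _).trans ?_
    calc ∑ b ∈ s, ‖ee ((a : ℝ) * b / q) *
          (ps (fun n => if n ≡ b [MOD q] then g n else 0) Y - (1 / (q.totient : ℂ)) * P)‖
        ≤ ∑ _b ∈ s, X / L ^ (B + 1) := by
          refine Finset.sum_le_sum fun b hb => ?_
          rw [norm_mul, norm_ee, one_mul]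
          exact hcls b hb
      _ = q.totient * (X / L ^ (B + 1)) := by
          rw [Finset.sum_const, nsmul_eq_mul, hs, card_cop]
      _ ≤ L ^ B * (X / L ^ (B + 1)) := by
          apply mul_le_mul_of_nonneg_right _ hM0
          refine le_trans ?_ hqB
          exact_mod_cast Nat.totient_le q
      _ = X / L := by
          field_simp
          ring
      _ ≤ ε / 4 * X := by
          rw [div_le_iff₀ hL0]
          have h5 : 4 ≤ ε * L := by
            have : 4 / ε ≤ L := by linarith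
            rw [div_le_iff₀ hε] at this
            linarith
          nlinarith
  have hC : ‖ps (fun n => if n.Coprime q then 0 else ee ((a : ℝ) / q * n) * g n) Y‖ ≤
      ε / 4 * X := by
    refine (norm_ps_noncop (fun n => ee ((a : ℝ) / q * n) * g n) (fun n => ?_) q Y hq hY0).trans ?_
    · rw [norm_mul, norm_ee, one_mul]
      exact hgn n
    · have h5 : Real.log Y ≤ L := Real.log_le_log (by linarith) hY
      have h6 : 0 ≤ Real.log (Y : ℝ) := Real.log_natCast_nonneg Y
      calc (q : ℝ) * Real.log Y ≤ L ^ B * L := mul_le_mul hqB h5 h6 (by positivity)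
        _ = L ^ (B + 1) := by ring
        _ ≤ ε / 4 * X := g1
  rw [hdec, hmain]
  refine (norm_add_le _ _).trans ?_
  have h7 := norm_add_le ((∑ b ∈ s, ee ((a : ℝ) * b / q)) * ((1 / (q.totient : ℂ)) * P))
    (∑ b ∈ s, ee ((a : ℝ) * b / q) *
      (ps (fun n => if n ≡ b [MOD q] then g n else 0) Y - (1 / (q.totient : ℂ)) * P))
  nlinarith

end Pool.Agent.H47.AG.MJ

namespace Pool.Agent.H47.AG

open Pool.Agent.H24.AG

theorem pf_VMJ (hb : T_VPSB) (hr : T_VRM) (hc : T_VCS) : T_VMJ := MJ.pf_VMJ hb hr hc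

end Pool.Agent.H47.AG
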