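import Pool.Agent.H24.AG.Targets

/-!
ABSOLUTE GAP (`MP_c59857_nt`), group T3v, row VPSB: Siegel-Walfisz with a slowly varying phase.
-/

set_option autoImplicit false

open MeasureTheory ProbabilityTheory Filter Topology Finset
open scoped Nat

namespace Pool.Agent.H47.AG

open Pool.Agent.H30.BV (cv)
open Pool.Agent.H24.AG

theorem norm_ee (x : ℝ) : ‖ee x‖ = 1 := by
  unfold ee
  have h : 2 * (Real.pi : ℂ) * Complex.I * (x : ℂ) = ((2 * Real.pi * x : ℝ) : ℂ) * Complex.I := by
    push_cast; ring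
  rw [h, Complex.norm_exp_ofReal_mul_I]

theorem ee_add (x y : ℝ) : ee (x + y) = ee x * ee y := by
  unfold ee
  rw [← Complex.exp_add]
  congr 1
  push_cast
  ring

theorem norm_ee_sub_one_le (x : ℝ) : ‖ee x - 1‖ ≤ 2 * Real.pi * |x| := by
  have h : ee x = Complex.exp (Complex.I * ((2 * Real.pi * x : ℝ) : ℂ)) := by
    unfold ee
    congr 1
    push_cast
    ring
  rw [h]
  have h2 := Real.norm_exp_I_mul_ofReal_sub_one_le (x := 2 * Real.pi * x)
  refine h2.trans (le_of_eq ?_)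
  rw [Real.norm_eq_abs, abs_mul, abs_of_pos (by positivity : (0 : ℝ) < 2 * Real.pi)]

/-- summation by parts for `ps` -/
theorem ps_parts (f g : ℕ → ℂ) (Y : ℕ) :
    ps (fun n => f n * g n) Y = ps f Y * g Y -
      ∑ n ∈ Finset.range Y, ps f n * (g (n + 1) - g n) := by
  induction Y with
  | zero => simp [ps]
  | succ Y ih =>
    have h1 : ∀ h : ℕ → ℂ, ps h (Y + 1) = ps h Y +
        ((ArithmeticFunction.vonMangoldt (Y + 1) : ℝ) : ℂ) * h (Y + 1) := by
      intro h
      unfold ps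
      rw [Finset.sum_Icc_succ_top (by omega)]
    rw [h1, h1, ih, Finset.sum_range_succ]
    ring

theorem norm_ps_mul_le (f g : ℕ → ℂ) (Y : ℕ) (M δ : ℝ)
    (hM : ∀ n ≤ Y, ‖ps f n‖ ≤ M) (hg : ‖g Y‖ ≤ 1) (hd : ∀ n < Y, ‖g (n + 1) - g n‖ ≤ δ) :
    ‖ps (fun n => f n * g n) Y‖ ≤ M * (1 + δ * Y) := by
  have hM0 : 0 ≤ M := (norm_nonneg _).trans (hM 0 (Nat.zero_le _))
  rw [ps_parts]
  calc ‖ps f Y * g Y - ∑ n ∈ Finset.range Y, ps f n * (g (n + 1) - g n)‖
      ≤ ‖ps f Y * g Y‖ + ‖∑ n ∈ Finset.range Y, ps f n * (g (n + 1) - g n)‖ := norm_sub_le _ _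
    _ ≤ M * 1 + ∑ n ∈ Finset.range Y, M * δ := by
        refine add_le_add ?_ ?_
        · rw [norm_mul]
          exact mul_le_mul (hM Y le_rfl) hg (norm_nonneg _) hM0
        · refine (norm_sum_le _ _).trans (Finset.sum_le_sum fun n hn => ?_)
          rw [norm_mul]
          have hn' := Finset.mem_range.1 hn
          exact mul_le_mul (hM n hn'.le) (hd n hn') (norm_nonneg _) hM0
    _ = M * (1 + δ * Y) := by
        rw [Finset.sum_const, Finset.card_range, nsmul_eq_mul]
        ring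

theorem pf_VPSB (h : T_VPSI) : T_VPSB := by
  intro A B
  obtain ⟨X₁, h1⟩ := h (A + B + 1) B
  refine ⟨max X₁ (Real.exp 8), ?_⟩
  intro X hX q χ hq hqB hχ θ hθ Y hY
  have hX1 : X₁ ≤ X := (le_max_left _ _).trans hX
  have hX8 : Real.exp 8 ≤ X := (le_max_right _ _).trans hX
  have hX0 : 0 < X := (Real.exp_pos 8).trans_le hX8
  have hL : 8 ≤ Real.log X := (Real.le_log_iff_exp_le hX0).2 hX8
  have hL0 : 0 < Real.log X := by linarith
  have hb := norm_ps_mul_le (cv χ) (fun n => ee (θ * n)) Y (X / Real.log X ^ (A + B + 1))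
    (2 * Real.pi * |θ|) (fun n hn => h1 X hX1 q χ hq hqB hχ n
      ((Nat.cast_le.2 hn).trans hY)) (norm_ee _).le ?_
  · refine hb.trans ?_
    have h2 : 1 + 2 * Real.pi * |θ| * Y ≤ Real.log X ^ (B + 1) := by
      have h3 : |θ| * (Y : ℝ) ≤ Real.log X ^ B :=
        (mul_le_mul_of_nonneg_left hY (abs_nonneg _)).trans hθ
      have h4 : 1 ≤ Real.log X ^ B := one_le_pow₀ (by linarith)
      have hpi : Real.pi ≤ 3.5 := by linarith [Real.pi_lt_d2]
      have h5 : 2 * Real.pi * |θ| * Y ≤ 2 * 3.5 * Real.log X ^ B := by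
        have : 2 * Real.pi * |θ| * Y = 2 * Real.pi * (|θ| * Y) := by ring
        rw [this]
        exact mul_le_mul (by linarith) h3 (by positivity) (by norm_num)
      rw [pow_succ]
      nlinarith
    have hp : 0 < Real.log X ^ (A + B + 1) := by positivity
    calc X / Real.log X ^ (A + B + 1) * (1 + 2 * Real.pi * |θ| * Y)
        ≤ X / Real.log X ^ (A + B + 1) * Real.log X ^ (B + 1) :=
          mul_le_mul_of_nonneg_left h2 (by positivity)
      _ = X / Real.log X ^ A := by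
          have : Real.log X ^ (A + B + 1) = Real.log X ^ A * Real.log X ^ (B + 1) := by
            rw [← pow_add]; congr 1
          rw [this]
          field_simp
  · intro n _
    have h3 : θ * ((n + 1 : ℕ) : ℝ) = θ * n + θ := by push_cast; ring
    have h4 : ee (θ * ((n + 1 : ℕ) : ℝ)) - ee (θ * n) = ee (θ * n) * (ee θ - 1) := by
      rw [h3, ee_add]; ring
    rw [h4, norm_mul, norm_ee, one_mul]
    exact norm_ee_sub_one_le θ

end Pool.Agent.H47.AG
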