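import Pool.Agent.H24.AG.Targets
import Pool.Agent.H22.MR.Cheb
import Pool.Agent.H58.BV.PM

/-!
ABSOLUTE GAP (`MP_c59857_nt`), group T3v, row VPSI: Siegel-Walfisz for sharp sums.
-/

set_option autoImplicit false

open MeasureTheory ProbabilityTheory Filter Topology Finset
open scoped Nat

namespace Pool.Agent.H47.AG

open Pool.Agent.H30.BV (cv)
open Pool.Agent.H24.AG

theorem norm_ps_le_psi (f : ℕ → ℂ) (hf : ∀ n, ‖f n‖ ≤ 1) (Y : ℕ) : ‖ps f Y‖ ≤ 6 * Y := by
  have h1 := Pool.Agent.H22.MR.psi_bound (Y : ℝ) (Nat.cast_nonneg _)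
  rw [Nat.floor_natCast] at h1
  refine le_trans ?_ h1
  unfold ps
  refine (norm_sum_le _ _).trans (Finset.sum_le_sum fun n _ => ?_)
  rw [norm_mul, Complex.norm_real, Real.norm_of_nonneg ArithmeticFunction.vonMangoldt_nonneg]
  exact mul_le_of_le_one_right ArithmeticFunction.vonMangoldt_nonneg (hf n)

/-- the difference of two sums with the weight `log (X / n)` -/
theorem diff_id (f : ℕ → ℂ) (Y : ℕ) (d : ℝ) (hd : 0 ≤ d) :
    (∑ n ∈ Finset.Icc 1 ⌊(Y : ℝ) * Real.exp d⌋₊,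
      ((ArithmeticFunction.vonMangoldt n : ℝ) : ℂ) * f n *
        ((Real.log ((Y : ℝ) * Real.exp d / n) : ℝ) : ℂ)) -
    (∑ n ∈ Finset.Icc 1 ⌊(Y : ℝ)⌋₊, ((ArithmeticFunction.vonMangoldt n : ℝ) : ℂ) * f n *
        ((Real.log ((Y : ℝ) / n) : ℝ) : ℂ)) =
    (d : ℂ) * ps f Y + ∑ n ∈ Finset.Ioc Y ⌊(Y : ℝ) * Real.exp d⌋₊,
      ((ArithmeticFunction.vonMangoldt n : ℝ) : ℂ) * f n *
        ((Real.log ((Y : ℝ) * Real.exp d / n) : ℝ) : ℂ) := by
  have hYZ : Y ≤ ⌊(Y : ℝ) * Real.exp d⌋₊ := by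
    apply Nat.le_floor
    have : 1 ≤ Real.exp d := Real.one_le_exp hd
    nlinarith [Nat.cast_nonneg (α := ℝ) Y]
  have hI : ∀ N : ℕ, Finset.Icc 1 N = Finset.Ioc 0 N := by
    intro N
    ext n
    simp only [Finset.mem_Icc, Finset.mem_Ioc]
    omega
  rw [Nat.floor_natCast, hI, ← Finset.sum_Ioc_consecutive _ (Nat.zero_le Y) hYZ, hI Y]
  unfold ps
  rw [hI, Finset.mul_sum, add_sub_right_comm, ← Finset.sum_sub_distrib]
  congr 1
  refine Finset.sum_congr rfl fun n hn => ?_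
  have hn' := Finset.mem_Ioc.1 hn
  have hn0 : (0 : ℝ) < n := by exact_mod_cast hn'.1
  have hY0 : (0 : ℝ) < Y := by exact_mod_cast (lt_of_lt_of_le hn'.1 hn'.2)
  have hl : Real.log ((Y : ℝ) * Real.exp d / n) = Real.log ((Y : ℝ) / n) + d := by
    rw [mul_div_right_comm, Real.log_mul (by positivity) (Real.exp_pos d).ne', Real.log_exp]
  rw [hl]
  push_cast
  ring

theorem err_le (f : ℕ → ℂ) (hf : ∀ n, ‖f n‖ ≤ 1) (Y : ℕ) (hY : 1 ≤ Y) (d : ℝ) (hd : 0 ≤ d) :
    ‖∑ n ∈ Finset.Ioc Y ⌊(Y : ℝ) * Real.exp d⌋₊,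
      ((ArithmeticFunction.vonMangoldt n : ℝ) : ℂ) * f n *
        ((Real.log ((Y : ℝ) * Real.exp d / n) : ℝ) : ℂ)‖ ≤
    ((Y : ℝ) * Real.exp d - Y) * (Real.log ((Y : ℝ) * Real.exp d) * d) := by
  have hY0 : (0 : ℝ) < Y := by exact_mod_cast hY
  have he : 1 ≤ Real.exp d := Real.one_le_exp hd
  have hZ1 : 1 ≤ (Y : ℝ) * Real.exp d := by
    have : (1 : ℝ) ≤ Y := by exact_mod_cast hY
    nlinarith
  have hlZ : 0 ≤ Real.log ((Y : ℝ) * Real.exp d) := Real.log_nonneg hZ1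
  have hYZ : Y ≤ ⌊(Y : ℝ) * Real.exp d⌋₊ := by
    apply Nat.le_floor
    nlinarith
  refine (norm_sum_le _ _).trans ?_
  have h1 : ∀ n ∈ Finset.Ioc Y ⌊(Y : ℝ) * Real.exp d⌋₊,
      ‖((ArithmeticFunction.vonMangoldt n : ℝ) : ℂ) * f n *
        ((Real.log ((Y : ℝ) * Real.exp d / n) : ℝ) : ℂ)‖ ≤
      Real.log ((Y : ℝ) * Real.exp d) * d := by
    intro n hn
    obtain ⟨hn1, hn2⟩ := Finset.mem_Ioc.1 hn
    have hnZ : (n : ℝ) ≤ (Y : ℝ) * Real.exp d := (Nat.le_floor_iff (by positivity)).1 hn2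
    have hn0 : (0 : ℝ) < n := by exact_mod_cast (by omega : 0 < n)
    have hYn : (Y : ℝ) ≤ n := by exact_mod_cast hn1.le
    rw [norm_mul, norm_mul, Complex.norm_real, Complex.norm_real,
      Real.norm_of_nonneg ArithmeticFunction.vonMangoldt_nonneg]
    have h2 : ArithmeticFunction.vonMangoldt n ≤ Real.log ((Y : ℝ) * Real.exp d) :=
      ArithmeticFunction.vonMangoldt_le_log.trans (Real.log_le_log hn0 hnZ)
    have h3 : 0 ≤ Real.log ((Y : ℝ) * Real.exp d / n) :=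
      Real.log_nonneg (by rw [le_div_iff₀ hn0]; linarith)
    have h4 : Real.log ((Y : ℝ) * Real.exp d / n) ≤ d := by
      have h5 : (Y : ℝ) * Real.exp d / n ≤ Real.exp d := by
        rw [div_le_iff₀ hn0]
        nlinarith [Real.exp_pos d]
      calc Real.log ((Y : ℝ) * Real.exp d / n) ≤ Real.log (Real.exp d) :=
            Real.log_le_log (by positivity) h5
        _ = d := Real.log_exp d
    rw [Real.norm_of_nonneg h3]
    refine mul_le_mul ?_ h4 h3 hlZ
    calc ArithmeticFunction.vonMangoldt n * ‖f n‖ ≤ ArithmeticFunction.vonMangoldt n * 1 :=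
          mul_le_mul_of_nonneg_left (hf n) ArithmeticFunction.vonMangoldt_nonneg
      _ ≤ Real.log ((Y : ℝ) * Real.exp d) := by rw [mul_one]; exact h2
  refine (Finset.sum_le_sum h1).trans ?_
  rw [Finset.sum_const, Nat.card_Ioc, nsmul_eq_mul, Nat.cast_sub hYZ]
  have h6 : ((⌊(Y : ℝ) * Real.exp d⌋₊ : ℕ) : ℝ) ≤ (Y : ℝ) * Real.exp d :=
    Nat.floor_le (by positivity)
  exact mul_le_mul_of_nonneg_right (by linarith) (mul_nonneg hlZ hd)

theorem pf_VPSI (h : T_VRZ) : T_VPSI := by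
  intro A B
  obtain ⟨X₁, h1⟩ := h (2 * A + 8) (B + 1)
  -- growth conditions
  have e1 : ∀ᶠ X : ℝ in atTop, 6 * Real.log X ^ A * √X ≤ X := by
    have hlo := isLittleO_log_rpow_rpow_atTop (s := 1 / 2) (A : ℝ) (by norm_num)
    have hb := hlo.bound (c := 1 / 6) (by norm_num)
    filter_upwards [hb, eventually_ge_atTop (1 : ℝ)] with X hX hX1
    have h0 : 0 ≤ Real.log X := Real.log_nonneg hX1
    have hX0 : 0 < X := by linarith
    rw [Real.rpow_natCast, ← Real.sqrt_eq_rpow, Real.norm_of_nonneg (by positivity),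
      Real.norm_of_nonneg (by positivity)] at hX
    have hs : √X * √X = X := Real.mul_self_sqrt hX0.le
    have hs0 : 0 ≤ √X := Real.sqrt_nonneg X
    nlinarith
  have e2 : ∀ᶠ X : ℝ in atTop, 8 * 2 ^ (2 * A + 8) + 2 ^ (B + 1) ≤ Real.log X :=
    Real.tendsto_log_atTop.eventually_ge_atTop _
  have e3 : ∀ᶠ X : ℝ in atTop, max X₁ 1 ≤ √X :=
    Real.tendsto_sqrt_atTop.eventually_ge_atTop _
  have hall := (e1.and (e2.and e3)).and (eventually_ge_atTop (Real.exp 1))
  obtain ⟨X₂, hX₂⟩ := eventually_atTop.1 hall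
  refine ⟨X₂, ?_⟩
  intro X hX q χ hq hqB hχ Y hY
  obtain ⟨⟨g1, g2, g3⟩, g4⟩ := hX₂ X hX
  have hX0 : 0 < X := (Real.exp_pos 1).trans_le g4
  set L := Real.log X with hL
  have hL8 : (8 : ℝ) * 2 ^ (2 * A + 8) ≤ L := by
    have : (0 : ℝ) < 2 ^ (B + 1) := by positivity
    linarith
  have hLB : (2 : ℝ) ^ (B + 1) ≤ L := by
    have : (0 : ℝ) < 8 * 2 ^ (2 * A + 8) := by positivity
    linarith
  have h2A : (1 : ℝ) ≤ 2 ^ (2 * A + 8) := one_le_pow₀ (by norm_num)
  have hLge8 : 8 ≤ L := by linarith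
  have hL0 : 0 < L := by linarith
  have hLA : 0 < L ^ A := by positivity
  have hcv : ∀ n, ‖cv χ n‖ ≤ 1 := fun n => Pool.Agent.H58.BV.cv_norm_le χ n
  rcases lt_or_ge (Y : ℝ) (√X) with hcase | hcase
  · -- small `Y`
    rw [le_div_iff₀ hLA]
    have h2 := norm_ps_le_psi (cv χ) hcv Y
    have hs0 : 0 ≤ √X := Real.sqrt_nonneg X
    calc ‖ps (cv χ) Y‖ * L ^ A ≤ 6 * Y * L ^ A := mul_le_mul_of_nonneg_right h2 hLA.le
      _ ≤ 6 * √X * L ^ A := by
          apply mul_le_mul_of_nonneg_right _ hLA.le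
          linarith
      _ = 6 * L ^ A * √X := by ring
      _ ≤ X := g1
  · -- large `Y`
    have hY1 : (1 : ℝ) ≤ Y := (le_max_right X₁ 1).trans (g3.trans hcase)
    have hYX : X₁ ≤ (Y : ℝ) := (le_max_left X₁ 1).trans (g3.trans hcase)
    have hY0 : (0 : ℝ) < Y := by linarith
    have hYn : 1 ≤ Y := by exact_mod_cast hY1
    set d : ℝ := 1 / L ^ (A + 3) with hd
    have hd0 : 0 < d := by positivity
    have hd1 : d ≤ 1 := by
      rw [hd, div_le_one (by positivity)]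
      exact one_le_pow₀ (by linarith)
    set Z : ℝ := (Y : ℝ) * Real.exp d with hZ
    have he1 : 1 ≤ Real.exp d := Real.one_le_exp hd0.le
    have he2 : Real.exp d ≤ 1 + 2 * d := by
      have h3 := Real.abs_exp_sub_one_sub_id_le (x := d) (by rw [abs_of_pos hd0]; exact hd1)
      have h4 := (abs_le.1 h3).2
      nlinarith
    have hYZ : (Y : ℝ) ≤ Z := by rw [hZ]; nlinarith
    have hZ3 : Z ≤ 3 * X := by
      rw [hZ]
      calc (Y : ℝ) * Real.exp d ≤ X * 3 := mul_le_mul hY (by linarith) (by positivity) hX0.le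
        _ = 3 * X := by ring
    have hlogY : L / 2 ≤ Real.log Y := by
      have h3 : Real.log (√X) ≤ Real.log Y :=
        Real.log_le_log (Real.sqrt_pos.2 hX0) hcase
      rw [Real.log_sqrt hX0.le] at h3
      exact h3
    have hlogZ : L / 2 ≤ Real.log Z := hlogY.trans (Real.log_le_log hY0 hYZ)
    have hZ0 : 0 < Z := by linarith
    have hlogZ2 : Real.log Z ≤ 2 * L := by
      have h3 : Z ≤ X * X := by
        have h5 : 3 ≤ X := by
          have h6 : Real.exp 8 ≤ X := (Real.le_log_iff_exp_le hX0).1 hLge8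
          have h7 := Real.add_one_le_exp (8 : ℝ)
          linarith
        nlinarith
      calc Real.log Z ≤ Real.log (X * X) := Real.log_le_log hZ0 h3
        _ = 2 * L := by rw [Real.log_mul hX0.ne' hX0.ne']; ring
    -- the conductor
    have hqY : ∀ W : ℝ, L / 2 ≤ Real.log W → (q : ℝ) ≤ Real.log W ^ (B + 1) := by
      intro W hW
      calc (q : ℝ) ≤ L ^ B := hqB
        _ ≤ (L / 2) ^ (B + 1) := by
            rw [div_pow, le_div_iff₀ (by positivity), pow_succ]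
            exact mul_le_mul_of_nonneg_left hLB (by positivity)
        _ ≤ Real.log W ^ (B + 1) := pow_le_pow_left₀ (by linarith) hW _
    have hR : ∀ W : ℝ, X₁ ≤ W → L / 2 ≤ Real.log W → 0 ≤ W → W ≤ 3 * X →
        ‖∑ n ∈ Finset.Icc 1 ⌊W⌋₊, ((ArithmeticFunction.vonMangoldt n : ℝ) : ℂ) * cv χ n *
          ((Real.log (W / n) : ℝ) : ℂ)‖ ≤ 3 * X * 2 ^ (2 * A + 8) / L ^ (2 * A + 8) := by
      intro W hW1 hW2 hW3 hW4
      refine (h1 W hW1 q χ hq (hqY W hW2) hχ).trans ?_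
      have h3 : (L / 2) ^ (2 * A + 8) ≤ Real.log W ^ (2 * A + 8) :=
        pow_le_pow_left₀ (by linarith) hW2 _
      calc W / Real.log W ^ (2 * A + 8) ≤ W / (L / 2) ^ (2 * A + 8) :=
            div_le_div_of_nonneg_left hW3 (by positivity) h3
        _ = W * 2 ^ (2 * A + 8) / L ^ (2 * A + 8) := by
            rw [div_pow]
            field_simp
        _ ≤ 3 * X * 2 ^ (2 * A + 8) / L ^ (2 * A + 8) := by
            gcongr
    have hRY := hR Y hYX hlogY hY0.le (by linarith)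
    have hRZ := hR Z (hYX.trans hYZ) hlogZ hZ0.le hZ3
    have hid := diff_id (cv χ) Y d hd0.le
    have herr := err_le (cv χ) hcv Y hYn d hd0.le
    rw [← hZ] at hid herr
    have herr2 : (Z - Y) * (Real.log Z * d) ≤ 4 * X * L * d ^ 2 := by
      have h3 : Z - Y ≤ 2 * d * X := by
        rw [hZ]
        nlinarith
      calc (Z - Y) * (Real.log Z * d) ≤ (2 * d * X) * (2 * L * d) := by
            apply mul_le_mul h3 _ (by
              have : 0 ≤ Real.log Z := by linarith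
              positivity) (by positivity)
            exact mul_le_mul_of_nonneg_right hlogZ2 hd0.le
        _ = 4 * X * L * d ^ 2 := by ring
    have hdps : ‖(d : ℂ) * ps (cv χ) Y‖ ≤
        6 * X * 2 ^ (2 * A + 8) / L ^ (2 * A + 8) + 4 * X * L * d ^ 2 := by
      have h3 := eq_sub_of_add_eq hid.symm
      rw [h3]
      refine (norm_sub_le _ _).trans (add_le_add ((norm_sub_le _ _).trans ?_) (herr.trans herr2))
      refine (add_le_add hRZ hRY).trans (le_of_eq ?_)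
      ring
    rw [norm_mul, Complex.norm_real, Real.norm_of_nonneg hd0.le] at hdps
    have h5 : ‖ps (cv χ) Y‖ ≤
        (6 * X * 2 ^ (2 * A + 8) / L ^ (2 * A + 8) + 4 * X * L * d ^ 2) / d := by
      rw [le_div_iff₀ hd0]
      linarith
    refine h5.trans ?_
    have h6 : (6 * X * 2 ^ (2 * A + 8) / L ^ (2 * A + 8) + 4 * X * L * d ^ 2) / d =
        X / L ^ A * (6 * 2 ^ (2 * A + 8) / L ^ 5 + 4 / L ^ 2) := by
      rw [hd]
      field_simp
      ring
    rw [h6]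
    refine mul_le_of_le_one_right (by positivity) ?_
    have h7 : 6 * 2 ^ (2 * A + 8) / L ^ 5 ≤ 1 / 2 := by
      rw [div_le_iff₀ (by positivity)]
      have h8 : (2 : ℝ) ≤ L ^ 4 := by
        calc (2 : ℝ) ≤ 8 ^ 4 := by norm_num
          _ ≤ L ^ 4 := pow_le_pow_left₀ (by norm_num) hLge8 4
      have h9 : L ^ 5 = L ^ 4 * L := by ring
      rw [h9]
      nlinarith
    have h8 : 4 / L ^ 2 ≤ 1 / 2 := by
      rw [div_le_iff₀ (by positivity)]
      nlinarith
    linarith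

end Pool.Agent.H47.AG
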