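import Pool.Agent.H38.AG.Targets

/-!
# MP_7ecdd4_nt, module RD1: the triples with an entry of small radical
-/

set_option autoImplicit false

open Pool.Agent.H38.RB Pool.Agent.H38.PS Pool.Agent.H82.RD Pool.Agent.H38.AB Pool.Agent.H38.AG

namespace Pool.Agent.H47.AG

theorem sum_inv_sqrt (N : ℕ) : ∑ s ∈ Finset.Icc 1 N, 1 / Real.sqrt (s : ℝ) ≤ 2 * Real.sqrt N := by
  induction N with
  | zero => simp
  | succ N ih =>
    rw [Finset.sum_Icc_succ_top (by omega)]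
    have h0 : 0 < Real.sqrt ((N + 1 : ℕ) : ℝ) := Real.sqrt_pos.2 (by positivity)
    have h1 : 0 ≤ Real.sqrt (N : ℝ) := Real.sqrt_nonneg _
    have h2 : Real.sqrt ((N + 1 : ℕ) : ℝ) ^ 2 = N + 1 := by
      rw [Real.sq_sqrt (by positivity)]
      push_cast
      ring
    have h3 : Real.sqrt (N : ℝ) ^ 2 = N := Real.sq_sqrt (by positivity)
    have h4 : 1 / Real.sqrt ((N + 1 : ℕ) : ℝ) ≤
        2 * Real.sqrt ((N + 1 : ℕ) : ℝ) - 2 * Real.sqrt (N : ℝ) := by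
      rw [div_le_iff₀ h0]
      nlinarith [sq_nonneg (Real.sqrt ((N + 1 : ℕ) : ℝ) - Real.sqrt (N : ℝ))]
    linarith

theorem pf_RD1 (hFIP : T_FIP) : T_RD1 := by
  classical
  intro c₁ hc₁
  obtain ⟨C, hC, hF⟩ := hFIP (c₁ / 4) (by positivity)
  refine ⟨c₁ / 4, 6 * C, by positivity, by positivity, ?_⟩
  intro X hX
  have hX0 : 0 < X := by linarith
  obtain ⟨Y, hYdef⟩ : ∃ Y, Y = X ^ (1 / 3 - c₁) := ⟨_, rfl⟩
  have hY0 : 0 < Y := by rw [hYdef]; positivity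
  have hYX : Y ≤ X := by
    rw [hYdef]
    calc X ^ (1 / 3 - c₁) ≤ X ^ (1 : ℝ) := Real.rpow_le_rpow_of_exponent_le hX (by linarith)
      _ = X := Real.rpow_one X
  obtain ⟨N, hN⟩ : ∃ N, N = ⌊Y⌋₊ := ⟨_, rfl⟩
  have hNY : (N : ℝ) ≤ Y := by rw [hN]; exact Nat.floor_le hY0.le
  let B : Fin 3 × ℕ → Set (Fin 3 → ℤ) := fun t => {x | Adm x ∧
    pd (x t.1).natAbs.primeFactors = t.2 ∧ (pd (pr x).primeFactors : ℝ) ≤ t.2 * (X / t.2)}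
  let T : Finset (Fin 3 × ℕ) := Finset.univ ×ˢ Finset.Icc 1 N
  have hs : ∀ t ∈ T, 1 ≤ t.2 ∧ (t.2 : ℝ) ≤ Y := by
    intro t ht
    have h1 := Finset.mem_Icc.1 (Finset.mem_product.1 ht).2
    exact ⟨h1.1, le_trans (by exact_mod_cast h1.2) hNY⟩
  have hBT : ∀ t ∈ T, (B t).Finite ∧ ((B t).ncard : ℝ) ≤
      C * X ^ (c₁ / 4) * X ^ (1 / 2 : ℝ) * (1 / Real.sqrt (t.2 : ℝ)) := by
    intro t ht
    obtain ⟨h1, h2⟩ := hs t ht
    have h3 : (0 : ℝ) < t.2 := by exact_mod_cast h1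
    have h4 : 1 ≤ X / t.2 := by
      rw [le_div_iff₀ h3]
      linarith
    obtain ⟨h5, h6⟩ := hF t.1 t.2 (X / t.2) h1 h4
    refine ⟨h5, h6.trans_eq ?_⟩
    rw [mul_div_cancel₀ _ h3.ne', ← Real.sqrt_eq_rpow (X / t.2), Real.sqrt_div hX0.le,
      Real.sqrt_eq_rpow X]
    ring
  have hsub : {x | Adm x ∧ (pd (pr x).primeFactors : ℝ) ≤ X ∧
      ∃ i, (pd (x i).natAbs.primeFactors : ℝ) ≤ X ^ (1 / 3 - c₁)} ⊆ ⋃ t ∈ T, B t := by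
    rintro x ⟨h1, h2, i, h3⟩
    rw [← hYdef] at h3
    have h4 : 1 ≤ pd (x i).natAbs.primeFactors :=
      Finset.prod_pos fun p hp => (Nat.prime_of_mem_primeFactors hp).pos
    have h5 : (0 : ℝ) < pd (x i).natAbs.primeFactors := by exact_mod_cast h4
    refine Set.mem_biUnion (x := (i, pd (x i).natAbs.primeFactors)) ?_ ?_
    · refine Finset.mem_coe.2 (Finset.mem_product.2 ⟨Finset.mem_univ _, Finset.mem_Icc.2
        ⟨h4, ?_⟩⟩)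
      rw [hN]
      exact Nat.le_floor h3
    · refine ⟨h1, rfl, ?_⟩
      show (pd (pr x).primeFactors : ℝ) ≤
        (pd (x i).natAbs.primeFactors : ℝ) * (X / (pd (x i).natAbs.primeFactors : ℝ))
      rw [mul_div_cancel₀ _ h5.ne']
      exact h2
  have hfin : (⋃ t ∈ T, B t).Finite := T.finite_toSet.biUnion fun t ht => (hBT t ht).1
  refine ⟨hfin.subset hsub, ?_⟩
  have h1 : ((⋃ t ∈ T, B t).ncard : ℝ) ≤ ∑ t ∈ T, ((B t).ncard : ℝ) := by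
    exact_mod_cast Finset.set_ncard_biUnion_le T B
  have h2 : ∑ t ∈ T, ((B t).ncard : ℝ) ≤ ∑ t ∈ T,
      C * X ^ (c₁ / 4) * X ^ (1 / 2 : ℝ) * (1 / Real.sqrt (t.2 : ℝ)) :=
    Finset.sum_le_sum fun t ht => (hBT t ht).2
  have h3 : ∑ t ∈ T, C * X ^ (c₁ / 4) * X ^ (1 / 2 : ℝ) * (1 / Real.sqrt (t.2 : ℝ)) =
      3 * (C * X ^ (c₁ / 4) * X ^ (1 / 2 : ℝ) *
        ∑ s ∈ Finset.Icc 1 N, 1 / Real.sqrt (s : ℝ)) := by
    rw [Finset.sum_product]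
    show ∑ _i : Fin 3, ∑ s ∈ Finset.Icc 1 N, C * X ^ (c₁ / 4) * X ^ (1 / 2 : ℝ) *
      (1 / Real.sqrt (s : ℝ)) = _
    rw [Finset.sum_const, Finset.card_univ, Fintype.card_fin, nsmul_eq_mul, ← Finset.mul_sum]
    norm_num
  have h4 : Real.sqrt (N : ℝ) ≤ X ^ ((1 / 3 - c₁) / 2) := by
    have : Real.sqrt (N : ℝ) ≤ Real.sqrt Y := Real.sqrt_le_sqrt hNY
    refine this.trans_eq ?_
    rw [hYdef, Real.sqrt_eq_rpow, ← Real.rpow_mul hX0.le]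
    congr 1
    ring
  have h5 : ∑ s ∈ Finset.Icc 1 N, 1 / Real.sqrt (s : ℝ) ≤ 2 * X ^ ((1 / 3 - c₁) / 2) :=
    (sum_inv_sqrt N).trans (by linarith)
  have h6 : X ^ (c₁ / 4) * X ^ (1 / 2 : ℝ) * X ^ ((1 / 3 - c₁) / 2) = X ^ (2 / 3 - c₁ / 4) := by
    rw [← Real.rpow_add hX0, ← Real.rpow_add hX0]
    congr 1
    ring
  have h7 : (({x | Adm x ∧ (pd (pr x).primeFactors : ℝ) ≤ X ∧
      ∃ i, (pd (x i).natAbs.primeFactors : ℝ) ≤ X ^ (1 / 3 - c₁)} : Set (Fin 3 → ℤ)).ncard : ℝ) ≤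
      (⋃ t ∈ T, B t).ncard := by
    exact_mod_cast Set.ncard_le_ncard hsub hfin
  have h8 : 0 ≤ C * X ^ (c₁ / 4) * X ^ (1 / 2 : ℝ) := by positivity
  calc _ ≤ _ := h7
    _ ≤ _ := h1
    _ ≤ _ := h2
    _ = _ := h3
    _ ≤ 3 * (C * X ^ (c₁ / 4) * X ^ (1 / 2 : ℝ) * (2 * X ^ ((1 / 3 - c₁) / 2))) := by
      have := mul_le_mul_of_nonneg_left h5 h8
      linarith
    _ = 6 * C * (X ^ (c₁ / 4) * X ^ (1 / 2 : ℝ) * X ^ ((1 / 3 - c₁) / 2)) := by ring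
    _ = 6 * C * X ^ (2 / 3 - c₁ / 4) := by rw [h6]

end Pool.Agent.H47.AG
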