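import Pool.Agent.H38.AG.Targets

/-!
# MP_7ecdd4_nt, module SLS: the reduced triples of moderate height
-/

set_option autoImplicit false

open Pool.Agent.H38.RB Pool.Agent.H38.PS Pool.Agent.H82.RD Pool.Agent.H38.AB Pool.Agent.H38.AG

namespace Pool.Agent.H47.AG

theorem pd_pos {S : Finset ℕ} (h : ∀ p ∈ S, p.Prime) : 0 < pd S :=
  Finset.prod_pos fun p hp => (h p hp).pos

theorem pd_sdiff {S G : Finset ℕ} (h : G ⊆ S) : pd (S \ G) * pd G = pd S := Finset.prod_sdiff h

theorem tp_sdiff {m : ℕ} (hm : m ≠ 0) {G : Finset ℕ} (h : G ⊆ m.primeFactors) :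
    tp (m.primeFactors \ G) m * tp G m = m := by
  have h1 : tp (m.primeFactors \ G) m * tp G m = ∏ p ∈ m.primeFactors, p ^ m.factorization p :=
    Finset.prod_sdiff h
  rw [h1]
  exact Nat.prod_factorization_pow_eq_self hm

theorem tp_pos {m : ℕ} {G : Finset ℕ} (h : ∀ p ∈ G, p.Prime) : 0 < tp G m :=
  Finset.prod_pos fun p hp => pow_pos (h p hp).pos _

/-- a subset of moderate weight -/
theorem exists_mid {P : Finset ℕ} (hP : ∀ p ∈ P, p.Prime) {s t : ℝ} (hs : 0 < s) (hst : 2 * s ≤ t)
    (h1 : ∀ p ∈ P, Real.log p ≤ t) (h2 : s ≤ Real.log (pd P)) :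
    ∃ G ⊆ P, s ≤ Real.log (pd G) ∧ Real.log (pd G) ≤ t := by
  classical
  obtain ⟨G, hG, hmin⟩ := Finset.exists_min_image (P.powerset.filter fun G => s ≤ Real.log (pd G))
    Finset.card ⟨P, Finset.mem_filter.2 ⟨Finset.mem_powerset.2 subset_rfl, h2⟩⟩
  obtain ⟨hG1, hG2⟩ := Finset.mem_filter.1 hG
  rw [Finset.mem_powerset] at hG1
  refine ⟨G, hG1, hG2, ?_⟩
  obtain ⟨p, hp⟩ : G.Nonempty := by
    rw [Finset.nonempty_iff_ne_empty]
    rintro rfl
    have : Real.log (pd (∅ : Finset ℕ)) = 0 := by simp [pd]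
    linarith
  have hpP := hP p (hG1 hp)
  have hlt : Real.log (pd (G.erase p)) < s := by
    by_contra hcon
    push Not at hcon
    have h3 := hmin (G.erase p) (Finset.mem_filter.2 ⟨Finset.mem_powerset.2
      ((Finset.erase_subset _ _).trans hG1), hcon⟩)
    have h4 := Finset.card_erase_lt_of_mem hp
    omega
  have h5 : pd G = p * pd (G.erase p) := (Finset.mul_prod_erase G (fun p => p) hp).symm
  have h6 : 0 < pd (G.erase p) := pd_pos fun q hq => hP q (hG1 (Finset.mem_of_mem_erase hq))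
  have h7 : Real.log (pd G) = Real.log p + Real.log (pd (G.erase p)) := by
    rw [h5, Nat.cast_mul, Real.log_mul (by exact_mod_cast hpP.ne_zero) (by exact_mod_cast h6.ne')]
  by_cases h8 : s ≤ Real.log p
  · have h9 := hmin {p} (Finset.mem_filter.2 ⟨Finset.mem_powerset.2
      (Finset.singleton_subset_iff.2 (hG1 hp)), by simpa [pd] using h8⟩)
    rw [Finset.card_singleton] at h9
    have h10 : G = {p} := by
      refine (Finset.eq_of_subset_of_card_le (Finset.singleton_subset_iff.2 hp) ?_).symm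
      rw [Finset.card_singleton]
      exact h9
    rw [h10]
    simpa [pd] using h1 p (hG1 hp)
  · push Not at h8
    linarith

theorem key {X : ℝ} (hX : 2 ≤ X) {x : Fin 3 → ℤ} {a b c : Fin 3} (hab : a ≠ b) (hac : a ≠ c)
    (hbc : b ≠ c) (hne : ∀ i, x i ≠ 0)
    (hprod : Real.log (pd (x a).natAbs.primeFactors) + Real.log (pd (x b).natAbs.primeFactors) +
      Real.log (pd (x c).natAbs.primeFactors) ≤ Real.log X)
    (hW : ∀ i, (1 / 3 - 1 / 1000) * Real.log X ≤ Real.log (pd (x i).natAbs.primeFactors))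
    (hbig : 414 * Real.log X ≤ Real.log ((x a).natAbs : ℝ))
    (hPE : ¬ PE X (X ^ (2 / 3 - 1 / 100 : ℝ)) x) :
    ∃ p : ℕ, p.Prime ∧ (1 / 3 - 1 / 100 - 1 / 2000) * Real.log X ≤ Real.log p ∧
      400 < (x a).natAbs.factorization p := by
  have hX0 : 0 < X := by linarith
  have hl : 0 < Real.log X := Real.log_pos (by linarith)
  obtain ⟨P, hPdef⟩ : ∃ P, P = (x a).natAbs.primeFactors := ⟨_, rfl⟩
  obtain ⟨m, hmdef⟩ : ∃ m, m = (x a).natAbs := ⟨_, rfl⟩
  have hm : m ≠ 0 := by rw [hmdef]; exact Int.natAbs_ne_zero.2 (hne a)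
  have hprimes : ∀ (i : Fin 3) (S : Finset ℕ), S ⊆ (x i).natAbs.primeFactors → ∀ p ∈ S, p.Prime :=
    fun i S hS p hp => Nat.prime_of_mem_primeFactors (hS hp)
  have hpdpos : ∀ (i : Fin 3) (S : Finset ℕ), S ⊆ (x i).natAbs.primeFactors → (0 : ℝ) < pd S :=
    fun i S hS => by exact_mod_cast pd_pos (hprimes i S hS)
  -- the parts of small weight
  have hsmall : ∀ G ⊆ P, Real.log (pd G) ≤ (1 / 3 - 1 / 100 - 1 / 2000) * Real.log X →
      Real.log (tp G m) < 4 * Real.log X := by
    intro G hG hw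
    have h1 : (tp G m : ℝ) < X ^ 4 := by
      by_contra hcon
      push Not at hcon
      refine hPE ⟨a, b, c, G, hab, hac, hbc, hPdef ▸ hG, hmdef ▸ hcon, ?_⟩
      have hb := hpdpos b _ subset_rfl
      have hc := hpdpos c _ subset_rfl
      have hGp := hpdpos a G (hPdef ▸ hG)
      rw [← Real.log_le_log_iff (by positivity) (by positivity), Real.log_rpow hX0,
        Real.log_mul hGp.ne' (by positivity), Real.log_sqrt (by positivity),
        Real.log_mul hb.ne' hc.ne']
      have := hW a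
      linarith
    have h2 : (0 : ℝ) < tp G m := by exact_mod_cast tp_pos (hprimes a G (hPdef ▸ hG))
    have h3 := Real.log_lt_log h2 h1
    rwa [Real.log_pow, Nat.cast_ofNat] at h3
  have hsplit : ∀ G ⊆ P, Real.log (tp (P \ G) m) + Real.log (tp G m) = Real.log m := by
    intro G hG
    have h1 := tp_sdiff hm (G := G) (by rw [hmdef, ← hPdef]; exact hG)
    have h2 : m.primeFactors = P := by rw [hmdef, hPdef]
    rw [h2] at h1
    have h3 : (0 : ℝ) < tp G m := by exact_mod_cast tp_pos (hprimes a G (hPdef ▸ hG))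
    have h4 : (0 : ℝ) < tp (P \ G) m := by
      exact_mod_cast tp_pos (hprimes a (P \ G) (Finset.sdiff_subset.trans hPdef.le))
    rw [← Real.log_mul h4.ne' h3.ne', ← Nat.cast_mul, h1]
  have hpdsplit : ∀ G ⊆ P, Real.log (pd (P \ G)) + Real.log (pd G) = Real.log (pd P) := by
    intro G hG
    have h1 := hpdpos a G (hPdef ▸ hG)
    have h2 := hpdpos a (P \ G) (Finset.sdiff_subset.trans hPdef.le)
    rw [← Real.log_mul h2.ne' h1.ne', ← Nat.cast_mul, pd_sdiff hG]
  have hWP : Real.log (pd P) ≤ (1 / 3 + 2 / 1000) * Real.log X := by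
    have h1 := hW b
    have h2 := hW c
    rw [hPdef]
    linarith
  rw [← hmdef] at hbig
  -- there is a large prime
  obtain ⟨p, hpP, hp⟩ : ∃ p ∈ P, (1 / 3 - 1 / 100 - 1 / 2000) * Real.log X < Real.log p := by
    by_contra hcon
    push Not at hcon
    obtain ⟨G, hG, h1, h2⟩ := exists_mid (P := P) (hprimes a P hPdef.le)
      (s := 1 / 80 * Real.log X) (t := (1 / 3 - 1 / 100 - 1 / 2000) * Real.log X)
      (by positivity) (by linarith) hcon (by
        have := hW a
        rw [← hPdef] at this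
        linarith)
    have h3 := hpdsplit G hG
    have h4 := hsmall G hG h2
    have h5 := hsmall (P \ G) Finset.sdiff_subset (by linarith)
    have h6 := hsplit G hG
    linarith
  have hpp : p.Prime := hprimes a P hPdef.le p hpP
  refine ⟨p, hpp, hp.le, ?_⟩
  have hs : {p} ⊆ P := Finset.singleton_subset_iff.2 hpP
  have h1 := hpdsplit {p} hs
  have h2 : Real.log (pd {p}) = Real.log p := by simp [pd]
  have h3 := hsmall (P \ {p}) Finset.sdiff_subset (by rw [h2] at h1; linarith)
  have h4 := hsplit {p} hs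
  have h5 : Real.log (tp {p} m) = m.factorization p * Real.log p := by
    have : tp {p} m = p ^ m.factorization p := by simp [tp]
    rw [this, Nat.cast_pow, Real.log_pow]
  have h6 : 410 * Real.log X < m.factorization p * Real.log p := by
    rw [← h5]
    linarith
  have h7 : Real.log p ≤ Real.log X := by
    have h8 : 0 ≤ Real.log (pd (P \ {p})) := Real.log_natCast_nonneg _
    rw [h2] at h1
    linarith
  have h9 : (400 : ℝ) < m.factorization p := by
    by_contra hcon
    push Not at hcon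
    have h10 : (0 : ℝ) ≤ Real.log p := Real.log_natCast_nonneg _
    have h11 : (m.factorization p : ℝ) * Real.log p ≤ 400 * Real.log X :=
      mul_le_mul hcon h7 h10 (by norm_num)
    linarith
  rw [← hmdef]
  exact_mod_cast h9

theorem pd_pr {x : Fin 3 → ℤ} (hx : Adm x) : pd (pr x).primeFactors =
    pd (x 0).natAbs.primeFactors * pd (x 1).natAbs.primeFactors * pd (x 2).natAbs.primeFactors := by
  have h0 := Int.natAbs_ne_zero.2 (hx.1 0)
  have h1 := Int.natAbs_ne_zero.2 (hx.1 1)
  have h2 := Int.natAbs_ne_zero.2 (hx.1 2)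
  have hc : ∀ i j : Fin 3, i ≠ j → Disjoint (x i).natAbs.primeFactors (x j).natAbs.primeFactors :=
    fun i j hij => Nat.Coprime.disjoint_primeFactors
      (Int.isCoprime_iff_gcd_eq_one.1 (hx.2.1 i j hij))
  unfold pr
  rw [Int.natAbs_mul, Int.natAbs_mul, Nat.primeFactors_mul (mul_ne_zero h0 h1) h2,
    Nat.primeFactors_mul h0 h1]
  unfold pd
  rw [Finset.prod_union, Finset.prod_union (hc 0 1 (by decide))]
  rw [Finset.disjoint_union_left]
  exact ⟨hc 0 2 (by decide), hc 1 2 (by decide)⟩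

theorem pf_SLS : T_SLS := by
  refine ⟨400, 420, 1 / 1000, by norm_num, by norm_num, by norm_num, ?_⟩
  intro X x hX hx hL
  have hX0 : 0 < X := by linarith
  have hl : 0 < Real.log X := Real.log_pos (by linarith)
  obtain ⟨hA, hpd, hW, -, -⟩ := hx
  by_cases hPA : PA X x
  · exact Or.inl hPA
  right
  by_cases hPE : PE X (X ^ (2 / 3 - 1 / 100 : ℝ)) x
  · exact Or.inl hPE
  right
  have hpos : ∀ i : Fin 3, (0 : ℝ) < pd (x i).natAbs.primeFactors := fun i => by
    exact_mod_cast pd_pos fun p hp => Nat.prime_of_mem_primeFactors hp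
  have hW' : ∀ i, (1 / 3 - 1 / 1000) * Real.log X ≤ Real.log (pd (x i).natAbs.primeFactors) := by
    intro i
    rw [← Real.log_rpow hX0]
    exact Real.log_le_log (by positivity) (hW i)
  have hsum : Real.log (pd (x 0).natAbs.primeFactors) + Real.log (pd (x 1).natAbs.primeFactors) +
      Real.log (pd (x 2).natAbs.primeFactors) ≤ Real.log X := by
    rw [← Real.log_mul (hpos 0).ne' (hpos 1).ne', ← Real.log_mul
      (mul_pos (hpos 0) (hpos 1)).ne' (hpos 2).ne']
    refine Real.log_le_log (mul_pos (mul_pos (hpos 0) (hpos 1)) (hpos 2)) ?_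
    rw [pd_pr hA] at hpd
    exact_mod_cast hpd
  have hbig : ∀ i, 414 * Real.log X ≤ Real.log ((x i).natAbs : ℝ) := by
    intro i
    have h1 : (ht x : ℝ) < ((x i).natAbs : ℝ) * X ^ 6 := by
      by_contra hcon
      push Not at hcon
      exact hPA ⟨i, hcon⟩
    have h2 : (0 : ℝ) < (x i).natAbs := by
      exact_mod_cast Int.natAbs_pos.2 (hA.1 i)
    have h3 : (0 : ℝ) < ht x := by
      have : (x 0).natAbs ≤ ht x := le_max_left _ _
      have h4 : 0 < (x 0).natAbs := Int.natAbs_pos.2 (hA.1 0)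
      exact_mod_cast h4.trans_le this
    have h5 := Real.log_lt_log h3 h1
    rw [Real.log_mul h2.ne' (by positivity), Real.log_pow, Nat.cast_ofNat] at h5
    linarith
  obtain ⟨p, hp, hp1, hp2⟩ := key hX (a := 0) (b := 1) (c := 2) (by decide) (by decide)
    (by decide) hA.1 hsum hW' (hbig 0) hPE
  obtain ⟨r, hr, hr1, hr2⟩ := key hX (a := 1) (b := 0) (c := 2) (by decide) (by decide)
    (by decide) hA.1 (by linarith) hW' (hbig 1) hPE
  refine ⟨0, 1, p, r, by decide, hp, hr, hp2, hr2, ?_⟩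
  have hp0 : (0 : ℝ) < p := by exact_mod_cast hp.pos
  have hr0 : (0 : ℝ) < r := by exact_mod_cast hr.pos
  have hpd0 : (0 : ℝ) < pd (pr x).primeFactors := by
    exact_mod_cast pd_pos fun p hp => Nat.prime_of_mem_primeFactors hp
  rw [← Real.log_le_log_iff (by positivity) (by positivity), Real.log_mul hpd0.ne'
    (by positivity), Real.log_mul (by positivity) (by positivity), Real.log_rpow (by positivity),
    Real.log_rpow hX0, Real.log_mul hp0.ne' hr0.ne']
  have h1 := Real.log_le_log hpd0 hpd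
  have h2 : (4 : ℝ) / (3 * (((400 : ℕ) : ℝ) + 3)) = 4 / 1209 := by norm_num
  rw [h2]
  linarith

end Pool.Agent.H47.AG
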