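import Pool.Agent.H64.AG.Defs

/-! TP: finite powers of compact countably tight spaces. -/

set_option autoImplicit false

open Topology Cardinal

namespace Pool.Agent.H47.AG

open Pool.Agent.H64.AG Pool.Agent.H64.AK Pool.Agent.H20.SL Pool.Agent.H60.CP

theorem ct_homeo {X Y : Type} [TopologicalSpace X] [TopologicalSpace Y] (e : X ≃ₜ Y)
    (hX : CT X) : CT Y := by
  intro A y hy
  have h1 : e.symm y ∈ closure (e.symm '' A) :=
    image_closure_subset_closure_image e.symm.continuous ⟨y, hy, rfl⟩
  obtain ⟨B, hB, hBc, hB2⟩ := hX _ _ h1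
  refine ⟨e '' B, ?_, hBc.image _, ?_⟩
  · rintro _ ⟨b, hb, rfl⟩
    obtain ⟨a, ha, hab⟩ := hB hb
    rw [← hab, e.apply_symm_apply]
    exact ha
  · have h2 := image_closure_subset_closure_image e.continuous ⟨_, hB2, rfl⟩
    rwa [e.apply_symm_apply] at h2

theorem ct_fin (hTP1 : T_TP1) (X : Type) [TopologicalSpace X] [CompactSpace X] [T2Space X]
    (hX : CT X) : ∀ k : ℕ, CT (Fin k → X) := by
  intro k
  induction k with
  | zero =>
    intro A x hx
    have hne : A.Nonempty := closure_nonempty_iff.1 ⟨x, hx⟩
    obtain ⟨a, ha⟩ := hne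
    refine ⟨{a}, by simpa using ha, Set.countable_singleton a, ?_⟩
    rw [Subsingleton.elim x a]
    exact subset_closure rfl
  | succ k ih =>
    have h1 : CT (X × (Fin k → X)) := hTP1 X (Fin k → X) hX ih
    refine ct_homeo (X := X × (Fin k → X)) (Y := Fin (k + 1) → X)
      { toFun := fun q => Fin.cons (α := fun _ => X) q.1 q.2
        invFun := fun f => (f 0, fun i => f i.succ)
        left_inv := fun q => by simp
        right_inv := fun f => by
          funext i
          refine Fin.cases ?_ (fun j => ?_) i
          · simp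
          · simp
        continuous_toFun := ?_
        continuous_invFun := ?_ } h1
    · refine continuous_pi fun i => ?_
      refine Fin.cases ?_ (fun j => ?_) i
      · simpa using continuous_fst
      · have h2 : Continuous fun a : X × (Fin k → X) => a.2 j :=
          (continuous_apply j).comp continuous_snd
        simpa using h2
    · exact (continuous_apply _).prodMk (continuous_pi fun i => continuous_apply _)

theorem tp (hTP1 : T_TP1) : T_TP := by
  intro X _ _ _ hX ι _
  obtain ⟨k, ⟨e⟩⟩ := Finite.exists_equiv_fin ι
  refine ct_homeo (Homeomorph.piCongrLeft (Y := fun _ : ι => X) e.symm) (ct_fin hTP1 X hX k)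

end Pool.Agent.H47.AG
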