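import Pool.Agent.H64.AG.Defs

/-! TP1: products of compact countably tight spaces. -/

set_option autoImplicit false

open Topology Cardinal

namespace Pool.Agent.H47.AG

open Pool.Agent.H64.AG Pool.Agent.H64.AK Pool.Agent.H20.SL Pool.Agent.H60.CP

/-- closed under closures of countable subsets -/
def CCl {Z : Type} [TopologicalSpace Z] (H : Set Z) : Prop :=
  ∀ B ⊆ H, B.Countable → closure B ⊆ H

theorem ccl_closed {Z : Type} [TopologicalSpace Z] (hZ : CT Z) {H : Set Z} (hH : CCl H) :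
    IsClosed H := by
  refine isClosed_of_closure_subset fun x hx => ?_
  obtain ⟨B, hB, hBc, hxB⟩ := hZ H x hx
  exact hH B hB hBc hxB

theorem ccl_prod {X Y : Type} [TopologicalSpace X] [TopologicalSpace Y] [CompactSpace X]
    [CompactSpace Y] [T2Space X] [T2Space Y] (hX : CT X) (hY : CT Y) {H : Set (X × Y)}
    (hH : CCl H) : IsClosed H := by
  refine isClosed_of_closure_subset fun z hz => ?_
  obtain ⟨x, y⟩ := z
  by_contra hn
  have hHx : IsClosed {y' : Y | (x, y') ∈ H} := by
    apply ccl_closed hY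
    intro B hB hBc y' hy'
    have h1 : (x, y') ∈ closure ((fun w => (x, w)) '' B) :=
      image_closure_subset_closure_image (by fun_prop : Continuous fun w : Y => (x, w))
        ⟨y', hy', rfl⟩
    refine hH _ ?_ (hBc.image _) h1
    rintro _ ⟨w, hw, rfl⟩
    exact hB hw
  obtain ⟨C, hC, hCc, hCH⟩ := exists_mem_nhds_isClosed_subset (hHx.isOpen_compl.mem_nhds hn)
  have hP : IsClosed (Prod.fst '' {z : X × Y | z ∈ H ∧ z.2 ∈ C}) := by
    apply ccl_closed hX
    intro B hB hBc
    have hne : Nonempty (X × Y) := ⟨(x, y)⟩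
    choose! g hg using fun c (hc : c ∈ B) => hB hc
    have h1 : closure (g '' B) ⊆ {z : X × Y | z ∈ H ∧ z.2 ∈ C} := by
      intro w hw
      refine ⟨hH _ ?_ (hBc.image g) hw, ?_⟩
      · rintro _ ⟨c, hc, rfl⟩
        exact (hg c hc).1.1
      · have h2 : IsClosed {z : X × Y | z.2 ∈ C} := hCc.preimage continuous_snd
        refine closure_minimal ?_ h2 hw
        rintro _ ⟨c, hc, rfl⟩
        exact (hg c hc).1.2
    have h3 : IsClosed (Prod.fst '' closure (g '' B)) :=
      (isClosed_closure.isCompact.image continuous_fst).isClosed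
    refine (closure_minimal ?_ h3).trans (Set.image_mono h1)
    intro c hc
    exact ⟨g c, subset_closure ⟨c, hc, rfl⟩, (hg c hc).2⟩
  have hxP : x ∈ closure (Prod.fst '' {z : X × Y | z ∈ H ∧ z.2 ∈ C}) := by
    rw [mem_closure_iff_nhds]
    intro U hU
    obtain ⟨w, hw1, hw2⟩ := mem_closure_iff_nhds.1 hz (U ×ˢ C) (prod_mem_nhds hU hC)
    exact ⟨w.1, hw1.1, w, ⟨hw2, hw1.2⟩, rfl⟩
  rw [hP.closure_eq] at hxP
  obtain ⟨⟨x', y'⟩, ⟨h1, h2⟩, h3⟩ := hxP
  have h4 : x' = x := h3
  subst h4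
  exact hCH h2 h1

theorem tp1 : T_TP1 := by
  intro X Y _ _ _ _ _ _ hX hY A z hz
  have hH : CCl {z : X × Y | ∃ B ⊆ A, B.Countable ∧ z ∈ closure B} := by
    intro C hC hCc w hw
    choose! b hb using fun c (hc : c ∈ C) => hC hc
    refine ⟨⋃ c ∈ C, b c, Set.iUnion₂_subset fun c hc => (hb c hc).1,
      hCc.biUnion fun c hc => (hb c hc).2.1, ?_⟩
    refine closure_minimal ?_ isClosed_closure hw
    intro c hc
    exact closure_mono (Set.subset_biUnion_of_mem hc) (hb c hc).2.2
  have h1 := ccl_prod hX hY hH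
  have h2 : A ⊆ {z : X × Y | ∃ B ⊆ A, B.Countable ∧ z ∈ closure B} := fun a ha =>
    ⟨{a}, by simpa using ha, Set.countable_singleton a, subset_closure rfl⟩
  exact closure_minimal h2 h1 hz

end Pool.Agent.H47.AG
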